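import Mathlib

namespace Pool.Agent.Lib.MP_1599f7_gt

/-- Lusin space in the sense of Kunen: Hausdorff, every nowhere dense subset is countable,
at most countably many isolated points, and uncountable. -/
def IsLusinSpace (X : Type) [TopologicalSpace X] : Prop :=
  T2Space X ∧ (∀ A : Set X, IsNowhereDense A → A.Countable) ∧
    {x : X | IsOpen ({x} : Set X)}.Countable ∧ Uncountable X

/-- open omega-cover -/
def IsOmegaCover {X : Type} [TopologicalSpace X] (U : Set (Set X)) : Prop :=
  (∀ u ∈ U, IsOpen u) ∧ Set.univ ∉ U ∧ ∀ F : Set X, F.Finite → ∃ u ∈ U, F ⊆ u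

/-- open gamma-cover (infinite) -/
def IsGammaCover {X : Type} [TopologicalSpace X] (V : Set (Set X)) : Prop :=
  (∀ v ∈ V, IsOpen v) ∧ Set.univ ∉ V ∧ V.Infinite ∧ (∀ x : X, ∃ v ∈ V, x ∈ v) ∧
    ∀ x : X, {v ∈ V | x ∉ v}.Finite

/-- gamma-space: every open omega-cover has a subfamily that is a gamma-cover -/
def IsGammaSpace (X : Type) [TopologicalSpace X] : Prop :=
  ∀ U : Set (Set X), IsOmegaCover U → ∃ V ⊆ U, IsGammaCover V

/-- Suslin line: a linearly ordered set which in its order topology is ccc (every family of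
pairwise disjoint nonempty open sets is countable) and not separable. -/
def IsSuslinLine (L : Type) [LinearOrder L] [TopologicalSpace L] [OrderTopology L] : Prop :=
  (∀ G : Set (Set L), (∀ g ∈ G, IsOpen g ∧ g.Nonempty) → G.PairwiseDisjoint id → G.Countable) ∧
    ¬ TopologicalSpace.SeparableSpace L

end Pool.Agent.Lib.MP_1599f7_gt
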