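import Pool.Agent.Lib.MP_1599f7_gt.Tree

open Set Ordinal Cardinal

namespace Pool.Agent.Lib.MP_1599f7_gt

variable {T : Type} [PartialOrder T] {ρ : T → Ordinal.{0}} (h : SuslinTree T ρ)
include h

/-- the key combinatorial lemma (Baumgartner-Malitz-Reinhardt style) -/
theorem tuple_lemma (k : ℕ) (Q : Set (Fin k → LimPath T ρ)) :
    ∃ b < (ω_ 1 : Ordinal.{0}), ∀ p ∈ Q, (∀ i, b ≤ rk (p i)) →
      ∃ x ∈ Q, (∀ i, rk (x i) < b) ∧ ∀ i, ¬ ((x i).1 ⊂ (p i).1) := by
  classical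
  by_contra hcon
  push Not at hcon
  have hne0 : Nonempty (LimPath T ρ) := by
    obtain ⟨t⟩ := h.nonempty
    obtain ⟨x, -, -⟩ := exists_two h t
    exact ⟨x⟩
  choose! P hPQ hPrk hP using hcon
  -- a maximal set of well separated ordinals
  let 𝒮 : Set (Set Ordinal.{0}) :=
    {C | (∀ b ∈ C, b < ω_ 1) ∧ ∀ b' ∈ C, ∀ b ∈ C, b' < b → ∀ i, rk (P b' i) < b}
  obtain ⟨C, hC⟩ : ∃ C, Maximal (· ∈ 𝒮) C := by
    refine zorn_subset 𝒮 ?_
    intro c hc hchain
    refine ⟨⋃₀ c, ⟨?_, ?_⟩, fun s hs => Set.subset_sUnion_of_mem hs⟩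
    · rintro b ⟨s, hs, hb⟩
      exact (hc hs).1 b hb
    · rintro b' ⟨s, hs, hb'⟩ b ⟨t, ht, hb⟩ hlt i
      rcases hchain.total hs ht with h1 | h1
      · exact (hc ht).2 b' (h1 hb') b hb hlt i
      · exact (hc hs).2 b' hb' b (h1 hb) hlt i
  have hC1 := hC.prop
  have hCunc : ¬ C.Countable := by
    intro hcount
    have hcount' : (C ∪ ⋃ i : Fin k, (fun b => rk (P b i)) '' C).Countable :=
      hcount.union (Set.countable_iUnion fun i => hcount.image _)
    obtain ⟨b, hb, hb'⟩ := exists_bound hcount' (by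
      rintro s (hs | hs)
      · exact hC1.1 s hs
      · rw [Set.mem_iUnion] at hs
        obtain ⟨i, a, -, rfl⟩ := hs
        exact rk_lt_omega h _)
    have hbC : b ∉ C := fun hbC => lt_irrefl _ (hb' b (Or.inl hbC))
    have hins : insert b C ∈ 𝒮 := by
      refine ⟨?_, ?_⟩
      · rintro a (rfl | ha)
        · exact hb
        · exact hC1.1 a ha
      · rintro a' (rfl | ha') a (rfl | ha) hlt i
        · exact absurd hlt (lt_irrefl _)
        · exact absurd (hb' a (Or.inl ha)) (not_lt.2 hlt.le)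
        · exact hb' _ (Or.inr (Set.mem_iUnion.2 ⟨i, a', ha', rfl⟩))
        · exact hC1.2 a' ha' a ha hlt i
    have := hC.le_of_ge hins (Set.subset_insert b C)
    exact hbC (this (Set.mem_insert b C))
  have hne : (Filter.cocountable : Filter C).NeBot := by
    rw [Filter.neBot_iff]
    intro hbot
    apply hCunc
    have : (∅ : Set C) ∈ (Filter.cocountable : Filter C) := by rw [hbot]; trivial
    rw [Filter.mem_cocountable, Set.compl_empty, Set.countable_univ_iff] at this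
    exact this
  let W : Ultrafilter C := Ultrafilter.of Filter.cocountable
  have hW : ∀ s : Set C, (sᶜ).Countable → s ∈ W := fun s hs =>
    Ultrafilter.of_le Filter.cocountable (Filter.mem_cocountable.2 hs)
  have hev : ∀ b : C, ∀ᶠ b' : C in W, ∃ i, (P b i).1 ⊂ (P b' i).1 := by
    intro b
    have h1 : {b' : C | (b : Ordinal.{0}) < b'} ∈ W := by
      refine hW _ ?_
      have h2 : (Iic (b : Ordinal.{0})).Countable := countable_Iic_of_lt (hC1.1 b b.2)
      refine Set.countable_of_injective_of_countable_image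
        (f := (Subtype.val : C → Ordinal.{0})) Subtype.val_injective.injOn (h2.mono ?_)
      rintro _ ⟨b', hb', rfl⟩
      have hb'' : ¬ ((b : Ordinal.{0}) < b') := hb'
      exact not_lt.1 hb''
    filter_upwards [h1] with b' hb'
    exact hP b' (hC1.1 b' b'.2) (P b) (hPQ b (hC1.1 b b.2)) (hC1.2 b b.2 b' b'.2 hb')
  have hev' : ∀ b : C, ∃ i, ∀ᶠ b' : C in W, (P b i).1 ⊂ (P b' i).1 := fun b =>
    Ultrafilter.eventually_exists_iff.1 (hev b)
  choose f hf using hev'
  obtain ⟨i, hi⟩ : ∃ i, ∀ᶠ b : C in W, f b = i :=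
    Ultrafilter.eventually_exists_iff.1 (Filter.Eventually.of_forall fun b => ⟨f b, rfl⟩)
  let Ξ : Set C := {b | f b = i}
  have hΞ : Ξ ∈ W := hi
  have hΞunc : ¬ Ξ.Countable := by
    intro hc
    have : Ξᶜ ∈ W := hW _ (by rwa [compl_compl])
    exact (Ultrafilter.compl_notMem_iff.2 hΞ) this
  -- union of the i-th coordinates is a chain
  have hchain : ∀ s ∈ ⋃ b ∈ Ξ, (P (b : C) i).1, ∀ t ∈ ⋃ b ∈ Ξ, (P (b : C) i).1,
      s ≤ t ∨ t ≤ s := by
    intro s hs t ht
    simp only [Set.mem_iUnion, exists_prop] at hs ht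
    obtain ⟨b, hb, hs⟩ := hs
    obtain ⟨b', hb', ht⟩ := ht
    have h1 := hf b
    have h2 := hf b'
    have hb : f b = i := hb
    have hb' : f b' = i := hb'
    rw [hb] at h1
    rw [hb'] at h2
    obtain ⟨c, hc1, hc2⟩ := (h1.and h2).exists
    exact mem_chain h (P c i) (hc1.1 hs) (hc2.1 ht)
  have hcc := h.chain_countable _ hchain
  obtain ⟨b, hb, hb'⟩ := exists_bound (hcc.image ρ)
    (by rintro _ ⟨t, -, rfl⟩; exact h.lt_omega t)
  apply hΞunc
  refine Set.countable_of_injective_of_countable_image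
    (f := (Subtype.val : C → Ordinal.{0})) Subtype.val_injective.injOn
    ((countable_Iic_of_lt hb).mono ?_)
  rintro _ ⟨c, hc, rfl⟩
  have h1 : (c : Ordinal.{0}) ≤ rk (P c i) := hPrk c (hC1.1 c c.2) i
  have h2 : rk (P c i) ≤ b := by
    by_contra h3
    push Not at h3
    obtain ⟨s, hs, hr⟩ := exists_mem_rank h (P c i) h3
    have : ρ s < b := hb' _ ⟨s, Set.mem_biUnion hc hs, rfl⟩
    rw [hr] at this
    exact lt_irrefl _ this
  exact h1.trans h2

/-- the tuples captured by a cover -/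
def QSet (U : Set (Set (LimPath T ρ))) (F : Finset (LimPath T ρ)) (k : ℕ) (s : Fin k → T) :
    Set (Fin k → LimPath T ρ) :=
  {x | ∃ u ∈ U, (F : Set (LimPath T ρ)) ⊆ u ∧
    ∀ i, ∀ q : LimPath T ρ, s i ∈ q.1 → ¬ ((x i).1 ⊂ q.1) → q ∈ u}

theorem exists_good (U : Set (Set (LimPath T ρ))) :
    ∃ d < (ω_ 1 : Ordinal.{0}), Order.IsSuccLimit d ∧
      ∀ (F : Finset (LimPath T ρ)) (k : ℕ) (s : Fin k → T),
        (∀ x ∈ F, rk x < d) → (∀ i, ρ (s i) < d) →
        ∀ p ∈ QSet U F k s, (∀ i, rk (p i) = d) →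
          ∃ x ∈ QSet U F k s, (∀ i, rk (x i) < d) ∧ ∀ i, ¬ ((x i).1 ⊂ (p i).1) := by
  classical
  have hB : ∀ (F : Finset (LimPath T ρ)) (k : ℕ) (s : Fin k → T),
      ∃ b < (ω_ 1 : Ordinal.{0}), ∀ p ∈ QSet U F k s, (∀ i, b ≤ rk (p i)) →
      ∃ x ∈ QSet U F k s, (∀ i, rk (x i) < b) ∧ ∀ i, ¬ ((x i).1 ⊂ (p i).1) :=
    fun F k s => tuple_lemma h k _
  choose B hB1 hB2 using hB
  have hP : ∀ a < (ω_ 1 : Ordinal.{0}), ∃ b < (ω_ 1 : Ordinal.{0}),
      ∀ (F : Finset (LimPath T ρ)) (k : ℕ) (s : Fin k → T),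
        (∀ x ∈ F, rk x ≤ a) → (∀ i, ρ (s i) ≤ a) → B F k s < b := by
    intro a ha
    have h1 : Countable {x : LimPath T ρ // rk x ≤ a} := (le_countable_path h ha)
    have h2 : Countable {t : T // ρ t ≤ a} := (h.le_countable ha)
    obtain ⟨b, hb, hb'⟩ := exists_bound_iSup
      (ι := Finset {x : LimPath T ρ // rk x ≤ a} × (Σ k : ℕ, (Fin k → {t : T // ρ t ≤ a})))
      (f := fun d => B (d.1.image Subtype.val) d.2.1 (fun i => (d.2.2 i).1))
      (fun d => hB1 _ _ _)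
    refine ⟨b, hb, fun F k s hF hs => ?_⟩
    have := hb' (F.attach.image (fun x => ⟨x.1, hF x.1 x.2⟩), ⟨k, fun i => ⟨s i, hs i⟩⟩)
    simpa [Finset.image_image, Function.comp_def] using this
  obtain ⟨u, d, hd, hlim, hmono, hud, hdu, hPu⟩ := exists_limit_closed _ hP
  refine ⟨d, hd, hlim, ?_⟩
  intro F k s hF hs p hp hpd
  -- find a stage containing everything
  have hstage : ∃ n, (∀ x ∈ F, rk x ≤ u n) ∧ ∀ i, ρ (s i) ≤ u n := by
    have h1 : ∀ x ∈ F, ∃ n, rk x < u n := fun x hx => hdu _ (hF x hx)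
    have h2 : ∀ i, ∃ n, ρ (s i) < u n := fun i => hdu _ (hs i)
    choose! f hf using h1
    choose g hg using h2
    refine ⟨max (F.sup f) (Finset.univ.sup g), fun x hx => ?_, fun i => ?_⟩
    · exact (hf x hx).le.trans (hmono.monotone ((Finset.le_sup (f := f) hx).trans
        (le_max_left _ _)))
    · exact (hg i).le.trans (hmono.monotone ((Finset.le_sup (f := g) (Finset.mem_univ i)).trans
        (le_max_right _ _)))
  obtain ⟨n, hn1, hn2⟩ := hstage
  obtain ⟨b, hb1, hb2⟩ := hPu n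
  have hBd : B F k s < d := (hb2 F k s hn1 hn2).trans (hb1.trans (hud _))
  obtain ⟨x, hx, hx1, hx2⟩ := hB2 F k s p hp (fun i => by rw [hpd i]; exact hBd.le)
  exact ⟨x, hx, fun i => (hx1 i).trans hBd, hx2⟩

theorem gamma : IsGammaSpace (LimPath T ρ) := by
  classical
  intro U hU
  obtain ⟨hUo, hUuniv, hUfin⟩ := hU
  obtain ⟨d, hd, hlim, hgood⟩ := exists_good h U
  -- key property of `d`
  have key : ∀ F G : Finset (LimPath T ρ), (∀ x ∈ F, rk x < d) → (∀ x ∈ G, rk x = d) →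
      ∃ u ∈ U, (F : Set (LimPath T ρ)) ⊆ u ∧
        ∀ p ∈ G, ∀ q : LimPath T ρ, p.1 ⊆ q.1 → q ∈ u := by
    intro F G hF hG
    obtain ⟨u, hu, hFGu⟩ := hUfin ((F ∪ G : Finset (LimPath T ρ)) : Set (LimPath T ρ))
      (Finset.finite_toSet _)
    have hFu : (F : Set (LimPath T ρ)) ⊆ u := fun x hx => hFGu (by
      simp only [Finset.coe_union]; exact Or.inl hx)
    let e := G.equivFin
    let p : Fin G.card → LimPath T ρ := fun i => (e.symm i).1
    have hpG : ∀ i, p i ∈ G := fun i => (e.symm i).2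
    have hpu : ∀ i, p i ∈ u := fun i => hFGu (by
      simp only [Finset.coe_union]; exact Or.inr (hpG i))
    have hs : ∀ i, ∃ s ∈ (p i).1, ∀ q : LimPath T ρ, s ∈ q.1 → ¬ ((p i).1 ⊂ q.1) → q ∈ u :=
      fun i => nhd h (hUo u hu) (p i) (hpu i)
    choose s hs1 hs2 using hs
    have hpd : ∀ i, rk (p i) = d := fun i => hG _ (hpG i)
    have hsd : ∀ i, ρ (s i) < d := fun i => by
      have := rank_lt_rk h (p i) (hs1 i)
      rwa [hpd i] at this
    obtain ⟨x, ⟨v, hv, hFv, hxv⟩, hx1, hx2⟩ :=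
      hgood F G.card s hF hsd p ⟨u, hu, hFu, hs2⟩ hpd
    refine ⟨v, hv, hFv, ?_⟩
    intro p' hp' q hpq
    obtain ⟨i, hi⟩ : ∃ i, p i = p' := ⟨e ⟨p', hp'⟩, by simp [p]⟩
    refine hxv i q (hpq ?_) ?_
    · rw [← hi]; exact hs1 i
    · intro hxq
      apply hx2 i
      have hpi : (p i).1 ⊆ q.1 := by rw [hi]; exact hpq
      have h1 : (x i).1 ⊆ (p i).1 := subset_of_rk_le h
        (fun a ha b hb => mem_chain h q ha hb) hxq.1 hpi (by
          rw [hpd i]; exact (hx1 i).le)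
      refine ⟨h1, fun h2 => ?_⟩
      have h3 := rk_mono h h2
      rw [hpd i] at h3
      exact absurd (hx1 i) (not_lt.2 h3)
  have hcount : {x : LimPath T ρ | rk x ≤ d}.Countable := le_countable_path h hd
  obtain ⟨t⟩ := h.nonempty
  -- some point of rank `≤ d`
  have hne : {x : LimPath T ρ | rk x ≤ d}.Nonempty := by
    obtain ⟨x, y, hx, hy, hxy⟩ := exists_two h t
    by_cases h1 : d ≤ rk x
    · obtain ⟨p, -, hp⟩ := exists_restrict h x hlim h1
      exact ⟨p, hp.le⟩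
    · exact ⟨x, (not_le.1 h1).le⟩
  obtain ⟨e, he⟩ := hcount.exists_eq_range hne
  have hsel : ∀ n : ℕ, ∃ u ∈ U, (∀ i ≤ n, rk (e i) < d → e i ∈ u) ∧
      ∀ i ≤ n, rk (e i) = d → ∀ q : LimPath T ρ, (e i).1 ⊆ q.1 → q ∈ u := by
    intro n
    obtain ⟨u, hu, h1, h2⟩ := key
      (((Finset.range (n + 1)).image e).filter fun x => rk x < d)
      (((Finset.range (n + 1)).image e).filter fun x => rk x = d)
      (by intro x hx; exact (Finset.mem_filter.1 hx).2)
      (by intro x hx; exact (Finset.mem_filter.1 hx).2)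
    refine ⟨u, hu, fun i hi hr => h1 ?_, fun i hi hr => h2 (e i) ?_⟩
    · rw [Finset.mem_coe, Finset.mem_filter]
      exact ⟨Finset.mem_image_of_mem e (Finset.mem_range.2 (Nat.lt_succ_of_le hi)), hr⟩
    · rw [Finset.mem_filter]
      exact ⟨Finset.mem_image_of_mem e (Finset.mem_range.2 (Nat.lt_succ_of_le hi)), hr⟩
  choose v hvU hv1 hv2 using hsel
  have hmem : ∀ x : LimPath T ρ, ∃ i, ∀ n, i ≤ n → x ∈ v n := by
    intro x
    by_cases hx : d ≤ rk x
    · obtain ⟨p, hpx, hp⟩ := exists_restrict h x hlim hx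
      have : p ∈ Set.range e := by rw [← he]; exact hp.le
      obtain ⟨i, hi⟩ := this
      exact ⟨i, fun n hn => hv2 n i hn (by rw [hi, hp]) x (by rw [hi]; exact hpx)⟩
    · have hx' : rk x < d := not_le.1 hx
      have : x ∈ Set.range e := by rw [← he]; exact hx'.le
      obtain ⟨i, hi⟩ := this
      exact ⟨i, fun n hn => by
        have := hv1 n i hn (by rw [hi]; exact hx')
        rwa [hi] at this⟩
  refine ⟨Set.range v, ?_, ?_, ?_, ?_, ?_, ?_⟩
  · rintro _ ⟨n, rfl⟩; exact hvU n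
  · rintro _ ⟨n, rfl⟩; exact hUo _ (hvU n)
  · rintro ⟨n, hn⟩; exact hUuniv (hn ▸ hvU n)
  · intro hfin
    -- some value is attained infinitely often
    have : Finite (Set.range v) := hfin
    obtain ⟨w, hw⟩ := Finite.exists_infinite_fiber (Set.rangeFactorization v)
    have hwi : (Set.rangeFactorization v ⁻¹' {w}).Infinite := Set.infinite_coe_iff.1 hw
    have : (w : Set (LimPath T ρ)) = Set.univ := by
      rw [Set.eq_univ_iff_forall]
      intro x
      obtain ⟨i, hi⟩ := hmem x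
      obtain ⟨n, hn, hin⟩ := hwi.exists_gt i
      have h1 : v n = w := congrArg Subtype.val (show Set.rangeFactorization v n = w from hn)
      rw [← h1]; exact hi n hin.le
    obtain ⟨n, hn⟩ := w.2
    exact hUuniv (by rw [← this, ← hn]; exact hvU n)
  · intro x
    obtain ⟨i, hi⟩ := hmem x
    exact ⟨v i, ⟨i, rfl⟩, hi i le_rfl⟩
  · intro x
    obtain ⟨i, hi⟩ := hmem x
    refine ((Set.finite_lt_nat i).image v).subset ?_
    rintro _ ⟨⟨n, rfl⟩, hn⟩
    exact ⟨n, by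
      by_contra h1
      exact hn (hi n (not_lt.1 h1)), rfl⟩

end Pool.Agent.Lib.MP_1599f7_gt
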