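import Pool.Agent.Lib.MP_1599f7_gt.Tree

open Set Ordinal Cardinal

namespace Pool.Agent.Lib.MP_1599f7_gt

section Comps

variable {L : Type} [LinearOrder L] [TopologicalSpace L] [OrderTopology L]

/-- order-convex components of the complement of the closure of `S` -/
def comps (S : Set L) : Set (Set L) :=
  {J | ∃ x ∈ (closure S)ᶜ, J = Set.ordConnectedComponent (closure S)ᶜ x}

theorem comps_subset {S J : Set L} (hJ : J ∈ comps S) : J ⊆ (closure S)ᶜ := by
  obtain ⟨x, -, rfl⟩ := hJ
  exact ordConnectedComponent_subset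

theorem comps_ordConnected {S J : Set L} (hJ : J ∈ comps S) : J.OrdConnected := by
  obtain ⟨x, -, rfl⟩ := hJ
  infer_instance

theorem comps_nonempty {S J : Set L} (hJ : J ∈ comps S) : J.Nonempty := by
  obtain ⟨x, hx, rfl⟩ := hJ
  exact nonempty_ordConnectedComponent.2 hx

theorem comps_eq {S J : Set L} (hJ : J ∈ comps S) {x : L} (hx : x ∈ J) :
    J = Set.ordConnectedComponent (closure S)ᶜ x := by
  obtain ⟨y, hy, rfl⟩ := hJ
  exact ordConnectedComponent_eq (mem_ordConnectedComponent.1 hx)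

theorem comps_isOpen {S J : Set L} (hJ : J ∈ comps S) : IsOpen J := by
  rw [isOpen_iff_mem_nhds]
  intro x hx
  rw [comps_eq hJ hx, ordConnectedComponent_mem_nhds]
  exact isClosed_closure.isOpen_compl.mem_nhds (comps_subset hJ hx)

theorem mem_comps {S : Set L} {x : L} (hx : x ∉ closure S) :
    Set.ordConnectedComponent (closure S)ᶜ x ∈ comps S := ⟨x, hx, rfl⟩

/-- finer components are contained in coarser ones as soon as they meet -/
theorem comps_mono {S S' J J' : Set L} (hS : S ⊆ S') (hJ : J ∈ comps S) (hJ' : J' ∈ comps S')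
    {x : L} (hx : x ∈ J) (hx' : x ∈ J') : J' ⊆ J := by
  haveI := comps_ordConnected hJ'
  rw [comps_eq hJ hx]
  exact subset_ordConnectedComponent hx'
    ((comps_subset hJ').trans (compl_subset_compl.2 (closure_mono hS)))

/-- countable chain condition -/
def CCC (L : Type) [LinearOrder L] [TopologicalSpace L] : Prop :=
  ∀ G : Set (Set L), (∀ g ∈ G, IsOpen g ∧ g.Nonempty) → G.PairwiseDisjoint id → G.Countable

theorem comps_countable (hccc : CCC L) (S : Set L) : (comps S).Countable := by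
  refine hccc _ (fun J hJ => ⟨comps_isOpen hJ, comps_nonempty hJ⟩) ?_
  intro J hJ J' hJ' hne
  rw [Function.onFun, id, id, Set.disjoint_left]
  intro x hx hx'
  apply hne
  rw [comps_eq hJ hx, comps_eq hJ' hx']

/-- `D0` absorbs all the separable parts -/
theorem exists_D0 (hccc : CCC L) : ∃ D0 : Set L, D0.Countable ∧
    ∀ G : Set L, IsOpen G → G.Nonempty → Disjoint G (closure D0) →
      ∀ S : Set L, S.Countable → ¬ G ⊆ closure S := by
  classical
  let 𝒮 : Set (Set (Set L)) := {𝒢 | (∀ g ∈ 𝒢, IsOpen g ∧ g.Nonempty ∧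
      ∃ S : Set L, S.Countable ∧ g ⊆ closure S) ∧ 𝒢.PairwiseDisjoint id}
  obtain ⟨𝒢, h𝒢⟩ : ∃ 𝒢, Maximal (· ∈ 𝒮) 𝒢 := by
    refine zorn_subset 𝒮 ?_
    intro c hc hchain
    refine ⟨⋃₀ c, ⟨?_, ?_⟩, fun s hs => Set.subset_sUnion_of_mem hs⟩
    · rintro g ⟨s, hs, hg⟩
      exact (hc hs).1 g hg
    · rintro g ⟨s, hs, hg⟩ g' ⟨t, ht, hg'⟩ hne
      rcases hchain.total hs ht with h1 | h1
      · exact (hc ht).2 (h1 hg) hg' hne
      · exact (hc hs).2 hg (h1 hg') hne
  have h1 := h𝒢.prop
  have hcount : 𝒢.Countable := hccc 𝒢 (fun g hg => ⟨(h1.1 g hg).1, (h1.1 g hg).2.1⟩) h1.2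
  have h2 : ∀ g ∈ 𝒢, ∃ S : Set L, S.Countable ∧ g ⊆ closure S := fun g hg => (h1.1 g hg).2.2
  choose! D hD1 hD2 using h2
  refine ⟨⋃ g ∈ 𝒢, D g, hcount.biUnion hD1, ?_⟩
  intro G hGo hGn hGd S hS hGS
  have hdisj : ∀ g ∈ 𝒢, Disjoint G g := by
    intro g hg
    refine hGd.mono_right ((hD2 g hg).trans (closure_mono ?_))
    exact Set.subset_biUnion_of_mem (u := D) hg
  have hGn𝒢 : G ∉ 𝒢 := by
    intro hG
    have := hdisj G hG
    rw [disjoint_self] at this
    exact hGn.ne_empty this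
  have hins : insert G 𝒢 ∈ 𝒮 := by
    refine ⟨?_, ?_⟩
    · rintro g (rfl | hg)
      · exact ⟨hGo, hGn, S, hS, hGS⟩
      · exact h1.1 g hg
    · rintro g (rfl | hg) g' (rfl | hg') hne
      · exact absurd rfl hne
      · exact hdisj g' hg'
      · exact (hdisj g hg).symm
      · exact h1.2 hg hg' hne
  exact hGn𝒢 (h𝒢.le_of_ge hins (Set.subset_insert G 𝒢) (Set.mem_insert G 𝒢))

open Classical in
/-- a point of `J` with points of `J` on both sides (if there is one) -/
noncomputable def mid (J : Set L) : Set L :=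
  if h : ∃ c ∈ J, (∃ a ∈ J, a < c) ∧ ∃ b ∈ J, c < b then {h.choose} else ∅

theorem mid_countable (J : Set L) : (mid J).Countable := by
  unfold mid; split_ifs
  · exact Set.countable_singleton _
  · exact Set.countable_empty

/-- splitting points of all components -/
noncomputable def splits (S : Set L) : Set L := ⋃ J ∈ comps S, mid J

theorem splits_countable (hccc : CCC L) (S : Set L) : (splits S).Countable :=
  (comps_countable hccc S).biUnion fun J _ => mid_countable J

/-- the increasing sequence of countable sets -/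
noncomputable def CS (D0 : Set L) (α : Ordinal.{0}) : Set L :=
  D0 ∪ ⋃ β : Set.Iio α, splits (CS D0 β.1)
termination_by α
decreasing_by exact β.2

theorem CS_mono (D0 : Set L) {α β : Ordinal.{0}} (h : α ≤ β) : CS D0 α ⊆ CS D0 β := by
  rw [CS.eq_def D0 α, CS.eq_def D0 β]
  refine Set.union_subset_union_right _ ?_
  intro x hx
  rw [Set.mem_iUnion] at hx ⊢
  obtain ⟨γ, hγ⟩ := hx
  exact ⟨⟨γ.1, lt_of_lt_of_le γ.2 h⟩, hγ⟩

theorem D0_subset_CS (D0 : Set L) (α : Ordinal.{0}) : D0 ⊆ CS D0 α := by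
  rw [CS.eq_def D0 α]; exact Set.subset_union_left

theorem splits_subset_CS (D0 : Set L) {α β : Ordinal.{0}} (h : α < β) :
    splits (CS D0 α) ⊆ CS D0 β := by
  rw [CS.eq_def D0 β]
  intro x hx
  right
  rw [Set.mem_iUnion]
  exact ⟨⟨α, h⟩, hx⟩

theorem CS_countable (hccc : CCC L) {D0 : Set L} (hD0 : D0.Countable) {α : Ordinal.{0}}
    (hα : α < ω_ 1) : (CS D0 α).Countable := by
  rw [CS.eq_def D0 α]
  haveI : Countable (Set.Iio α) := countable_Iio_of_lt hα
  exact hD0.union (Set.countable_iUnion fun β => splits_countable hccc _)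

end Comps

variable {L : Type} [LinearOrder L] [TopologicalSpace L] [OrderTopology L]

/-- nodes of the tree: all components at countable stages -/
def Node (D0 : Set L) : Type := {J : Set L // ∃ α : Ordinal.{0}, α < ω_ 1 ∧ J ∈ comps (CS D0 α)}

instance (D0 : Set L) : PartialOrder (Node D0) where
  le a b := b.1 ⊆ a.1
  le_refl a := Set.Subset.rfl
  le_trans a b c hab hbc := Set.Subset.trans hbc hab
  le_antisymm a b hab hba := Subtype.ext (Set.Subset.antisymm hba hab)

noncomputable def lev {D0 : Set L} (a : Node D0) : Ordinal.{0} := a.2.choose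

theorem lev_lt {D0 : Set L} (a : Node D0) : lev a < ω_ 1 := a.2.choose_spec.1

theorem lev_mem {D0 : Set L} (a : Node D0) : a.1 ∈ comps (CS D0 (lev a)) := a.2.choose_spec.2

section Main

variable (hccc : CCC L) {D0 : Set L} (hD0 : D0.Countable)
  (hbig : ∀ G : Set L, IsOpen G → G.Nonempty → Disjoint G (closure D0) →
      ∀ S : Set L, S.Countable → ¬ G ⊆ closure S)

include hccc hD0 hbig

theorem big_of_subset {J : Set L} {α : Ordinal.{0}} (hJ : J ∈ comps (CS D0 α)) {G : Set L}
    (hG : IsOpen G) (hGn : G.Nonempty) (hGJ : G ⊆ J) {S : Set L} (hS : S.Countable) :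
    ∃ x ∈ G, x ∉ closure S := by
  have h1 : Disjoint G (closure D0) := by
    rw [Set.disjoint_left]
    intro x hx hx'
    exact comps_subset hJ (hGJ hx) (closure_mono (D0_subset_CS D0 α) hx')
  exact Set.not_subset.1 (hbig G hG hGn h1 S hS)

/-- each component has a splitting point -/
theorem exists_mid {J : Set L} {α : Ordinal.{0}} (hJ : J ∈ comps (CS D0 α)) :
    ∃ c ∈ J, c ∈ splits (CS D0 α) ∧ (∃ a ∈ J, a < c) ∧ ∃ b ∈ J, c < b := by
  classical
  have hinf : J.Infinite := by
    intro hfin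
    obtain ⟨x, hx, hx'⟩ := big_of_subset hccc hD0 hbig hJ (comps_isOpen hJ) (comps_nonempty hJ)
      Set.Subset.rfl hfin.countable
    exact hx' (subset_closure hx)
  obtain ⟨t, htJ, ht⟩ := hinf.exists_subset_card_eq 3
  let f := t.orderEmbOfFin ht
  have hf : ∀ i, f i ∈ J := fun i => htJ (Finset.orderEmbOfFin_mem t ht i)
  have h : ∃ c ∈ J, (∃ a ∈ J, a < c) ∧ ∃ b ∈ J, c < b :=
    ⟨f 1, hf 1, ⟨f 0, hf 0, f.strictMono (by decide)⟩, ⟨f 2, hf 2, f.strictMono (by decide)⟩⟩
  refine ⟨h.choose, h.choose_spec.1, ?_, h.choose_spec.2⟩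
  refine Set.mem_biUnion hJ ?_
  unfold mid
  rw [dif_pos h]
  exact Set.mem_singleton _

/-- a component at stage `α` is not a component at a different stage -/
theorem stage_unique {J : Set L} {α β : Ordinal.{0}} (hα : J ∈ comps (CS D0 α))
    (hβ : J ∈ comps (CS D0 β)) : α = β := by
  rcases lt_trichotomy α β with h1 | h1 | h1
  · obtain ⟨c, hc, hc', -⟩ := exists_mid hccc hD0 hbig hα
    exact absurd (subset_closure (splits_subset_CS D0 h1 hc')) (comps_subset hβ hc)
  · exact h1
  · obtain ⟨c, hc, hc', -⟩ := exists_mid hccc hD0 hbig hβ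
    exact absurd (subset_closure (splits_subset_CS D0 h1 hc')) (comps_subset hα hc)

theorem subset_of_meet {a b : Node D0} (hab : lev a ≤ lev b) {x : L} (hxa : x ∈ a.1)
    (hxb : x ∈ b.1) : b.1 ⊆ a.1 :=
  comps_mono (CS_mono D0 hab) (lev_mem a) (lev_mem b) hxa hxb

theorem comparable_of_meet {a b : Node D0} {x : L} (hxa : x ∈ a.1) (hxb : x ∈ b.1) :
    a ≤ b ∨ b ≤ a := by
  rcases le_total (lev a) (lev b) with h1 | h1
  · exact Or.inl (subset_of_meet hccc hD0 hbig h1 hxa hxb)
  · exact Or.inr (subset_of_meet hccc hD0 hbig h1 hxb hxa)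

/-- the node at stage `α` through `x` -/
theorem exists_node {α : Ordinal.{0}} (hα : α < ω_ 1) {x : L} (hx : x ∉ closure (CS D0 α)) :
    ∃ a : Node D0, x ∈ a.1 ∧ lev a = α := by
  let a : Node D0 := ⟨_, α, hα, mem_comps hx⟩
  exact ⟨a, self_mem_ordConnectedComponent.2 hx,
    stage_unique hccc hD0 hbig (lev_mem a) (mem_comps hx)⟩

theorem suslinTree (hne : ∃ x : L, x ∉ closure (CS D0 0)) :
    SuslinTree (Node D0) (lev (D0 := D0)) where
  nonempty := by
    obtain ⟨x, hx⟩ := hne
    obtain ⟨a, -, -⟩ := exists_node hccc hD0 hbig (Ordinal.omega_pos 1) hx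
    exact ⟨a⟩
  lt_omega := lev_lt
  mono := by
    intro s t hst
    by_contra hlt
    have hlt : lev t ≤ lev s := not_lt.1 hlt
    obtain ⟨x, hx⟩ := comps_nonempty (lev_mem t)
    have hxs : x ∈ s.1 := hst.le hx
    exact hst.not_ge (subset_of_meet hccc hD0 hbig hlt hx hxs)
  chain := by
    intro s t u hsu htu
    obtain ⟨x, hx⟩ := comps_nonempty (lev_mem u)
    exact comparable_of_meet hccc hD0 hbig (hsu hx) (htu hx)
  down := by
    intro t α hα
    obtain ⟨x, hx⟩ := comps_nonempty (lev_mem t)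
    have hx' : x ∉ closure (CS D0 α) := fun h1 =>
      comps_subset (lev_mem t) hx (closure_mono (CS_mono D0 hα.le) h1)
    obtain ⟨s, hs, hsl⟩ := exists_node hccc hD0 hbig (hα.trans (lev_lt t)) hx'
    have h1 : s ≤ t := subset_of_meet hccc hD0 hbig (by rw [hsl]; exact hα.le) hs hx
    refine ⟨s, lt_of_le_of_ne h1 ?_, hsl⟩
    rintro rfl
    rw [hsl] at hα; exact lt_irrefl _ hα
  up := by
    intro t α hα hα1
    obtain ⟨x, hx, hx'⟩ := big_of_subset hccc hD0 hbig (lev_mem t) (comps_isOpen (lev_mem t))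
      (comps_nonempty (lev_mem t)) Set.Subset.rfl (CS_countable hccc hD0 hα1)
    obtain ⟨u, hu, hul⟩ := exists_node hccc hD0 hbig hα1 hx'
    have h1 : t ≤ u := subset_of_meet hccc hD0 hbig (by rw [hul]; exact hα.le) hx hu
    refine ⟨u, lt_of_le_of_ne h1 ?_, hul⟩
    rintro rfl
    rw [hul] at hα; exact lt_irrefl _ hα
  branch := by
    intro t
    obtain ⟨c, hc, hcs, ⟨a, ha, hac⟩, ⟨b, hb, hcb⟩⟩ := exists_mid hccc hD0 hbig (lev_mem t)
    have hsucc : Order.succ (lev t) < ω_ 1 := succ_lt_omega1 (lev_lt t)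
    have hcc : c ∈ closure (CS D0 (Order.succ (lev t))) :=
      subset_closure (splits_subset_CS D0 (Order.lt_succ _) hcs)
    have hcount := CS_countable hccc hD0 hsucc
    obtain ⟨x, hx, hx'⟩ := big_of_subset hccc hD0 hbig (lev_mem t)
      ((comps_isOpen (lev_mem t)).inter isOpen_Iio) ⟨a, ha, hac⟩ Set.inter_subset_left hcount
    obtain ⟨y, hy, hy'⟩ := big_of_subset hccc hD0 hbig (lev_mem t)
      ((comps_isOpen (lev_mem t)).inter isOpen_Ioi) ⟨b, hb, hcb⟩ Set.inter_subset_left hcount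
    obtain ⟨u, hu, hul⟩ := exists_node hccc hD0 hbig hsucc hx'
    obtain ⟨v, hv, hvl⟩ := exists_node hccc hD0 hbig hsucc hy'
    have h1 : t ≤ u := subset_of_meet hccc hD0 hbig (by rw [hul]; exact Order.le_succ _) hx.1 hu
    have h2 : t ≤ v := subset_of_meet hccc hD0 hbig (by rw [hvl]; exact Order.le_succ _) hy.1 hv
    refine ⟨u, v, lt_of_le_of_ne h1 ?_, lt_of_le_of_ne h2 ?_, hul, hvl, ?_⟩
    · intro h3; rw [← h3] at hul; exact absurd hul (Order.lt_succ _).ne
    · intro h3; rw [← h3] at hvl; exact absurd hvl (Order.lt_succ _).ne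
    · intro h3
      have hyu : y ∈ u.1 := by rw [h3]; exact hv
      have := (comps_ordConnected (lev_mem u)).out hu hyu
      have hcu : c ∈ u.1 := this ⟨le_of_lt hx.2, le_of_lt hy.2⟩
      have h4 := comps_subset (lev_mem u) hcu
      rw [hul] at h4
      exact h4 hcc
  antichain := by
    intro A hA
    refine Set.countable_of_injective_of_countable_image (f := fun a : Node D0 => a.1)
      (Subtype.val_injective.injOn) ?_
    refine hccc _ ?_ ?_
    · rintro _ ⟨a, ha, rfl⟩
      exact ⟨comps_isOpen (lev_mem a), comps_nonempty (lev_mem a)⟩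
    · rintro _ ⟨a, ha, rfl⟩ _ ⟨b, hb, rfl⟩ hne
      rw [Function.onFun, id, id, Set.disjoint_left]
      intro x hxa hxb
      apply hne
      rcases comparable_of_meet hccc hD0 hbig hxa hxb with h1 | h1
      · rw [hA a ha b hb h1]
      · rw [hA b hb a ha h1]

end Main

theorem exists_suslinTree (hL : IsSuslinLine L) :
    ∃ (T : Type) (_ : PartialOrder T) (ρ : T → Ordinal.{0}), SuslinTree T ρ := by
  obtain ⟨hccc, hsep⟩ := hL
  obtain ⟨D0, hD0, hbig⟩ := exists_D0 (L := L) hccc
  refine ⟨Node D0, inferInstance, lev, suslinTree hccc hD0 hbig ?_⟩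
  by_contra hcon
  push Not at hcon
  exact hsep ⟨⟨CS D0 0, CS_countable hccc hD0 (Ordinal.omega_pos 1), hcon⟩⟩

end Pool.Agent.Lib.MP_1599f7_gt
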