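import Mathlib

open Set Ordinal Cardinal

namespace Pool.Agent.Lib.MP_1599f7_gt

theorem countable_Iio_of_lt {a : Ordinal.{0}} (h : a < ω_ 1) : (Iio a).Countable := by
  rw [Cardinal.lt_omega_iff_card_lt] at h
  rw [← Cardinal.le_aleph0_iff_set_countable, Cardinal.mk_Iio_ordinal]
  have h1 : a.card ≤ ℵ₀ := by
    have : a.card < Order.succ ℵ₀ := by
      simpa [← Cardinal.succ_aleph0] using h
    exact Order.lt_succ_iff.1 this
  exact Cardinal.lift_le_aleph0.2 h1

theorem countable_Iic_of_lt {a : Ordinal.{0}} (h : a < ω_ 1) : (Iic a).Countable := by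
  have : Iic a = insert a (Iio a) := by
    ext x; simp [le_iff_eq_or_lt]
  rw [this]
  exact (countable_Iio_of_lt h).insert a

theorem isSuccLimit_omega1 : Order.IsSuccLimit (ω_ 1 : Ordinal.{0}) :=
  Cardinal.isSuccLimit_omega 1

theorem succ_lt_omega1 {a : Ordinal.{0}} (h : a < ω_ 1) : Order.succ a < ω_ 1 :=
  isSuccLimit_omega1.succ_lt h

/-- a countable set of countable ordinals is bounded -/
theorem exists_bound {S : Set Ordinal.{0}} (hS : S.Countable) (h : ∀ s ∈ S, s < ω_ 1) :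
    ∃ b < (ω_ 1 : Ordinal.{0}), ∀ s ∈ S, s < b := by
  have : Countable S := hS
  refine ⟨⨆ s : S, Order.succ (s : Ordinal.{0}), ?_, ?_⟩
  · exact Ordinal.iSup_lt_omega_one fun s => succ_lt_omega1 (h s s.2)
  · intro s hs
    have h1 : Order.succ s ≤ ⨆ s : S, Order.succ (s : Ordinal.{0}) :=
      Ordinal.le_iSup (fun s : S => Order.succ (s : Ordinal.{0})) ⟨s, hs⟩
    exact lt_of_lt_of_le (Order.lt_succ s) h1

theorem exists_bound_iSup {ι : Type*} [Countable ι] {f : ι → Ordinal.{0}}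
    (h : ∀ i, f i < ω_ 1) : ∃ b < (ω_ 1 : Ordinal.{0}), ∀ i, f i < b := by
  obtain ⟨b, hb, hb'⟩ := exists_bound (S := Set.range f) (Set.countable_range f)
    (by rintro _ ⟨i, rfl⟩; exact h i)
  exact ⟨b, hb, fun i => hb' _ ⟨i, rfl⟩⟩

theorem not_countable_of_unbounded {S : Set Ordinal.{0}} (h : ∀ s ∈ S, s < ω_ 1)
    (hu : ∀ b < (ω_ 1 : Ordinal.{0}), ∃ s ∈ S, b ≤ s) : ¬ S.Countable := by
  intro hS
  obtain ⟨b, hb, hb'⟩ := exists_bound hS h
  obtain ⟨s, hs, hbs⟩ := hu b hb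
  exact absurd (hb' s hs) (not_lt.2 hbs)

/-- closure under a function, at a limit ordinal -/
theorem exists_limit_closed (P : Ordinal.{0} → Ordinal.{0} → Prop)
    (hP : ∀ a < (ω_ 1 : Ordinal.{0}), ∃ b < (ω_ 1 : Ordinal.{0}), P a b) :
    ∃ u : ℕ → Ordinal.{0}, ∃ d < (ω_ 1 : Ordinal.{0}), Order.IsSuccLimit d ∧ StrictMono u ∧
      (∀ n, u n < d) ∧ (∀ a < d, ∃ n, a < u n) ∧ ∀ n, ∃ b < u (n + 1), P (u n) b := by
  classical
  choose! f hf hPf using hP
  let g : Ordinal.{0} → Ordinal.{0} := fun a => Order.succ (max a (f a))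
  have hg : ∀ a < (ω_ 1 : Ordinal.{0}), g a < ω_ 1 := fun a ha =>
    succ_lt_omega1 (max_lt ha (hf a ha))
  let u : ℕ → Ordinal.{0} := fun n => g^[n] 0
  have hu0 : ∀ n, u n < ω_ 1 := by
    intro n
    induction n with
    | zero => simpa [u] using Ordinal.omega_pos 1
    | succ n ih => simpa [u, Function.iterate_succ_apply'] using hg _ ih
  have hus : ∀ n, u (n + 1) = g (u n) := fun n => by
    simp [u, Function.iterate_succ_apply']
  have hmono : StrictMono u := strictMono_nat_of_lt_succ fun n => by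
    rw [hus]; exact Order.lt_succ_of_le (le_max_left _ _)
  have hlt : ∀ n, u n < ⨆ n, u n := fun n =>
    lt_of_lt_of_le (hmono (Nat.lt_succ_self n)) (Ordinal.le_iSup u (n + 1))
  refine ⟨u, ⨆ n, u n, Ordinal.iSup_lt_omega_one hu0, ?_, hmono, hlt, ?_, ?_⟩
  · rw [Ordinal.isSuccLimit_iff]
    refine ⟨?_, ?_⟩
    · intro h0
      have := hlt 0
      rw [h0] at this
      exact absurd this (not_lt.2 zero_le)
    · rw [Order.isSuccPrelimit_iff_succ_lt]
      intro a ha
      obtain ⟨n, hn⟩ := (Ordinal.lt_iSup_iff).1 ha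
      exact lt_of_le_of_lt (Order.succ_le_of_lt hn) (hlt n)
  · intro a ha
    exact (Ordinal.lt_iSup_iff).1 ha
  · intro n
    refine ⟨f (u n), ?_, hPf _ (hu0 n)⟩
    rw [hus]; exact Order.lt_succ_of_le (le_max_right _ _)

end Pool.Agent.Lib.MP_1599f7_gt
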