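import Pool.Agent.Lib.MP_1599f7_gt.Ord
import Pool.Agent.Lib.MP_1599f7_gt.Defs

open Set Ordinal Cardinal

namespace Pool.Agent.Lib.MP_1599f7_gt

/-- A (normal, everywhere branching) Suslin tree with rank function `ρ`. -/
structure SuslinTree (T : Type) [PartialOrder T] (ρ : T → Ordinal.{0}) : Prop where
  nonempty : Nonempty T
  lt_omega : ∀ t, ρ t < ω_ 1
  mono : ∀ s t, s < t → ρ s < ρ t
  chain : ∀ s t u : T, s ≤ u → t ≤ u → s ≤ t ∨ t ≤ s
  down : ∀ t : T, ∀ α < ρ t, ∃ s, s < t ∧ ρ s = α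
  up : ∀ t : T, ∀ α, ρ t < α → α < ω_ 1 → ∃ u, t < u ∧ ρ u = α
  branch : ∀ t : T, ∃ a b, t < a ∧ t < b ∧ ρ a = Order.succ (ρ t) ∧ ρ b = Order.succ (ρ t) ∧
    a ≠ b
  antichain : ∀ A : Set T, (∀ a ∈ A, ∀ b ∈ A, a ≤ b → a = b) → A.Countable

namespace SuslinTree

variable {T : Type} [PartialOrder T] {ρ : T → Ordinal.{0}} (h : SuslinTree T ρ)
include h

theorem eq_of_le_of_rank {a b : T} (hab : a ≤ b) (hr : ρ b ≤ ρ a) : a = b := by
  rcases hab.lt_or_eq with h1 | h1
  · exact absurd (h.mono _ _ h1) (not_lt.2 hr)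
  · exact h1

theorem lt_of_le_of_rank {a b u : T} (ha : a ≤ u) (hb : b ≤ u) (hr : ρ a < ρ b) : a < b := by
  rcases h.chain a b u ha hb with h1 | h1
  · refine lt_of_le_of_ne h1 ?_
    rintro rfl; exact lt_irrefl _ hr
  · rcases h1.lt_or_eq with h2 | h2
    · exact absurd (h.mono _ _ h2) (not_lt.2 hr.le)
    · rw [h2] at hr; exact absurd hr (lt_irrefl _)

theorem eq_of_rank_eq {a b u : T} (ha : a ≤ u) (hb : b ≤ u) (hr : ρ a = ρ b) : a = b := by
  rcases h.chain a b u ha hb with h1 | h1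
  · exact h.eq_of_le_of_rank h1 hr.ge
  · exact (h.eq_of_le_of_rank h1 hr.le).symm

theorem level_countable (α : Ordinal.{0}) : {t : T | ρ t = α}.Countable := by
  refine h.antichain _ ?_
  intro a ha b hb hab
  exact h.eq_of_le_of_rank hab (by rw [ha, hb])

theorem le_countable {α : Ordinal.{0}} (hα : α < ω_ 1) : {t : T | ρ t ≤ α}.Countable := by
  have : {t : T | ρ t ≤ α} = ⋃ β ∈ Iic α, {t : T | ρ t = β} := by
    ext t; simp
  rw [this]
  exact (countable_Iic_of_lt hα).biUnion fun β _ => h.level_countable β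

/-- chains are countable -/
theorem chain_countable (C : Set T) (hC : ∀ a ∈ C, ∀ b ∈ C, a ≤ b ∨ b ≤ a) : C.Countable := by
  classical
  have key : ∀ c : T, ∃ g, c < g ∧ ρ g = Order.succ (ρ c) ∧ (c ∈ C → ∀ c' ∈ C, ¬ g ≤ c') := by
    intro c
    obtain ⟨a, b, hca, hcb, hra, hrb, hab⟩ := h.branch c
    by_cases h1 : ∀ c' ∈ C, ¬ a ≤ c'
    · exact ⟨a, hca, hra, fun _ => h1⟩
    · push Not at h1
      obtain ⟨c1, hc1, hac1⟩ := h1
      refine ⟨b, hcb, hrb, fun _ c2 hc2 hbc2 => ?_⟩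
      rcases hC c1 hc1 c2 hc2 with h2 | h2
      · exact hab (h.eq_of_rank_eq (hac1.trans h2) hbc2 (hra.trans hrb.symm))
      · exact hab (h.eq_of_rank_eq hac1 (hbc2.trans h2) (hra.trans hrb.symm))
  choose g hg1 hg2 hg3 using key
  have hinj : Set.InjOn g C := by
    intro a ha b hb hgab
    have hr : ρ a = ρ b := by
      have := (hg2 a).symm.trans ((congrArg ρ hgab).trans (hg2 b))
      exact Order.succ_injective this
    have h1 : a ≤ g a := (hg1 a).le
    have h2 : b ≤ g a := by rw [hgab]; exact (hg1 b).le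
    exact h.eq_of_rank_eq h1 h2 hr
  have hA : (g '' C).Countable := by
    refine h.antichain _ ?_
    rintro _ ⟨a, ha, rfl⟩ _ ⟨b, hb, rfl⟩ hab
    -- a, b comparable
    rcases hC a ha b hb with h1 | h1
    · rcases h1.lt_or_eq with h2 | h2
      · -- a < b
        exfalso
        have hb' : b ≤ g b := (hg1 b).le
        rcases h.chain (g a) b (g b) hab hb' with h3 | h3
        · exact hg3 a ha b hb h3
        · have h4 : ρ b ≤ ρ (g a) := by
            rcases h3.lt_or_eq with h5 | h5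
            · exact (h.mono _ _ h5).le
            · rw [h5]
          rcases h3.lt_or_eq with h5 | h5
          · have := h.mono _ _ h5
            rw [hg2 a, Order.lt_succ_iff] at this
            exact absurd (h.mono _ _ h2) (not_lt.2 this)
          · exact hg3 a ha b hb h5.ge
      · rw [h2]
    · rcases h1.lt_or_eq with h2 | h2
      · -- b < a, so rank (g b) < rank (g a)
        exfalso
        have h3 : ρ (g b) < ρ (g a) := by
          rw [hg2, hg2]; exact Order.succ_lt_succ (h.mono _ _ h2)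
        rcases hab.lt_or_eq with h4 | h4
        · exact absurd (h.mono _ _ h4) (not_lt.2 h3.le)
        · rw [h4] at h3; exact absurd h3 (lt_irrefl _)
      · rw [h2]
  exact (Set.countable_of_injective_of_countable_image hinj hA)

end SuslinTree

/-- limit branches -/
def LimPath (T : Type) [PartialOrder T] (ρ : T → Ordinal.{0}) : Type :=
  {p : Set T // ∃ e : T, Order.IsSuccLimit (ρ e) ∧ p = Set.Iio e}

variable {T : Type} [PartialOrder T] {ρ : T → Ordinal.{0}}

instance : TopologicalSpace (LimPath T ρ) :=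
  TopologicalSpace.generateFrom
    {S | ∃ t : T, S = {x : LimPath T ρ | t ∈ x.1} ∨ S = {x : LimPath T ρ | t ∉ x.1}}

theorem isOpen_mem (t : T) : IsOpen {x : LimPath T ρ | t ∈ x.1} :=
  TopologicalSpace.isOpen_generateFrom_of_mem ⟨t, Or.inl rfl⟩

theorem isOpen_notMem (t : T) : IsOpen {x : LimPath T ρ | t ∉ x.1} :=
  TopologicalSpace.isOpen_generateFrom_of_mem ⟨t, Or.inr rfl⟩

/-- length of a limit branch -/
noncomputable def rk (x : LimPath T ρ) : Ordinal.{0} := ρ x.2.choose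

theorem rk_isLimit (x : LimPath T ρ) : Order.IsSuccLimit (rk x) := x.2.choose_spec.1

theorem exists_rep (x : LimPath T ρ) : ∃ e : T, ρ e = rk x ∧ x.1 = Set.Iio e :=
  ⟨x.2.choose, rfl, x.2.choose_spec.2⟩

theorem mem_down (x : LimPath T ρ) {s t : T} (hst : s ≤ t) (ht : t ∈ x.1) : s ∈ x.1 := by
  obtain ⟨e, -, he⟩ := exists_rep x
  rw [he] at ht ⊢
  exact lt_of_le_of_lt hst ht

section
variable (h : SuslinTree T ρ)
include h

theorem rk_lt_omega (x : LimPath T ρ) : rk x < ω_ 1 := by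
  obtain ⟨e, he, -⟩ := exists_rep x
  rw [← he]; exact h.lt_omega e

theorem mem_chain (x : LimPath T ρ) {s t : T} (hs : s ∈ x.1) (ht : t ∈ x.1) : s ≤ t ∨ t ≤ s := by
  obtain ⟨e, -, he⟩ := exists_rep x
  rw [he] at hs ht
  exact h.chain s t e (le_of_lt hs) (le_of_lt ht)

theorem exists_mem_rank (x : LimPath T ρ) {α : Ordinal.{0}} (hα : α < rk x) :
    ∃ s ∈ x.1, ρ s = α := by
  obtain ⟨e, he, he'⟩ := exists_rep x
  rw [← he] at hα
  obtain ⟨s, hs, hs'⟩ := h.down e α hα
  exact ⟨s, by rw [he']; exact hs, hs'⟩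

theorem rank_lt_rk (x : LimPath T ρ) {s : T} (hs : s ∈ x.1) : ρ s < rk x := by
  obtain ⟨e, he, he'⟩ := exists_rep x
  rw [← he]; rw [he'] at hs
  exact h.mono _ _ hs

theorem mem_nonempty (x : LimPath T ρ) : ∃ s, s ∈ x.1 := by
  obtain ⟨s, hs, -⟩ := exists_mem_rank h x (α := 0)
    (by have := (rk_isLimit x).ne_bot; exact pos_iff_ne_zero.2 this)
  exact ⟨s, hs⟩

theorem eq_of_mem_rank_eq (x : LimPath T ρ) {s t : T} (hs : s ∈ x.1) (ht : t ∈ x.1)
    (hr : ρ s = ρ t) : s = t := by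
  rcases mem_chain h x hs ht with h1 | h1
  · exact h.eq_of_le_of_rank h1 hr.ge
  · exact (h.eq_of_le_of_rank h1 hr.le).symm

theorem lt_of_mem_rank_lt (x : LimPath T ρ) {s t : T} (hs : s ∈ x.1) (ht : t ∈ x.1)
    (hr : ρ s < ρ t) : s < t := by
  rcases mem_chain h x hs ht with h1 | h1
  · rcases h1.lt_or_eq with h2 | h2
    · exact h2
    · rw [h2] at hr; exact absurd hr (lt_irrefl _)
  · rcases h1.lt_or_eq with h2 | h2
    · exact absurd (h.mono _ _ h2) (not_lt.2 hr.le)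
    · rw [h2] at hr; exact absurd hr (lt_irrefl _)

theorem exists_succ_mem (x : LimPath T ρ) {s : T} (hs : s ∈ x.1) :
    ∃ s' ∈ x.1, s < s' ∧ ρ s' = Order.succ (ρ s) := by
  have h1 : Order.succ (ρ s) < rk x := (rk_isLimit x).succ_lt (rank_lt_rk h x hs)
  obtain ⟨s', hs', hr⟩ := exists_mem_rank h x h1
  exact ⟨s', hs', lt_of_mem_rank_lt h x hs hs' (by rw [hr]; exact Order.lt_succ _), hr⟩

theorem rk_mono {x y : LimPath T ρ} (hxy : x.1 ⊆ y.1) : rk x ≤ rk y := by
  by_contra hlt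
  push Not at hlt
  obtain ⟨s, hs, hr⟩ := exists_mem_rank h x hlt
  have := rank_lt_rk h y (hxy hs)
  rw [hr] at this
  exact lt_irrefl _ this

theorem subset_of_rk_le {x y : LimPath T ρ} {q : Set T} (hq : ∀ s ∈ q, ∀ t ∈ q, s ≤ t ∨ t ≤ s)
    (hx : x.1 ⊆ q) (hy : y.1 ⊆ q) (hr : rk x ≤ rk y) : x.1 ⊆ y.1 := by
  intro s hs
  have h1 : ρ s < rk y := lt_of_lt_of_le (rank_lt_rk h x hs) hr
  obtain ⟨t, ht, hrt⟩ := exists_mem_rank h y h1
  have : s = t := by
    rcases hq s (hx hs) t (hy ht) with h2 | h2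
    · exact h.eq_of_le_of_rank h2 hrt.le
    · exact (h.eq_of_le_of_rank h2 hrt.ge).symm
  rw [this]; exact ht

/-- points through a node at a prescribed limit rank -/
theorem exists_point (t : T) {δ : Ordinal.{0}} (hδ : Order.IsSuccLimit δ) (h1 : ρ t < δ)
    (h2 : δ < ω_ 1) : ∃ x : LimPath T ρ, t ∈ x.1 ∧ rk x = δ := by
  obtain ⟨u, htu, hu⟩ := h.up t δ h1 h2
  let x : LimPath T ρ := ⟨Set.Iio u, u, by rw [hu]; exact hδ, rfl⟩
  refine ⟨x, htu, ?_⟩
  obtain ⟨e, he, he'⟩ := exists_rep x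
  have h3 : Set.Iio u = Set.Iio e := he'
  rcases lt_trichotomy (ρ e) (ρ u) with h4 | h4 | h4
  · obtain ⟨s, hs, hr⟩ := h.down u _ h4
    have : s ∈ Set.Iio e := by rw [← h3]; exact hs
    have := h.mono _ _ this
    rw [hr] at this; exact absurd this (lt_irrefl _)
  · rw [← he, h4, hu]
  · obtain ⟨s, hs, hr⟩ := h.down e _ h4
    have : s ∈ Set.Iio u := by rw [h3]; exact hs
    have := h.mono _ _ this
    rw [hr] at this; exact absurd this (lt_irrefl _)

/-- restriction of a branch -/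
theorem exists_restrict (x : LimPath T ρ) {δ : Ordinal.{0}} (hδ : Order.IsSuccLimit δ)
    (hx : δ ≤ rk x) : ∃ p : LimPath T ρ, p.1 ⊆ x.1 ∧ rk p = δ := by
  rcases hx.lt_or_eq with h1 | h1
  · obtain ⟨e', he', hr'⟩ := exists_mem_rank h x h1
    let p : LimPath T ρ := ⟨Set.Iio e', e', by rw [hr']; exact hδ, rfl⟩
    refine ⟨p, ?_, ?_⟩
    · intro s hs
      exact mem_down x (le_of_lt hs) he'
    · obtain ⟨e, he, h3⟩ := exists_rep p
      have h3 : Set.Iio e' = Set.Iio e := h3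
      rcases lt_trichotomy (ρ e) (ρ e') with h4 | h4 | h4
      · obtain ⟨s, hs, hr⟩ := h.down e' _ h4
        have : s ∈ Set.Iio e := by rw [← h3]; exact hs
        have := h.mono _ _ this
        rw [hr] at this; exact absurd this (lt_irrefl _)
      · rw [← he, h4, hr']
      · obtain ⟨s, hs, hr⟩ := h.down e _ h4
        have : s ∈ Set.Iio e' := by rw [h3]; exact hs
        have := h.mono _ _ this
        rw [hr] at this; exact absurd this (lt_irrefl _)
  · exact ⟨x, Subset.rfl, h1.symm⟩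

/-- neighbourhood lemma -/
theorem nhd {U : Set (LimPath T ρ)} (hU : IsOpen U) :
    ∀ p ∈ U, ∃ s ∈ p.1, ∀ q : LimPath T ρ, s ∈ q.1 → ¬ (p.1 ⊂ q.1) → q ∈ U := by
  induction hU with
  | basic S hS =>
    intro p hp
    obtain ⟨t, rfl | rfl⟩ := hS
    · exact ⟨t, hp, fun q hq _ => hq⟩
    · have hp : t ∉ p.1 := hp
      by_cases h1 : ∀ r ∈ p.1, r ≤ t
      · obtain ⟨s, hs⟩ := mem_nonempty h p
        refine ⟨s, hs, fun q _ hpq htq => hpq ?_⟩
        have htq : t ∈ q.1 := htq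
        refine ⟨fun r hr => mem_down q (h1 r hr) htq, fun hqp => hp (hqp htq)⟩
      · push Not at h1
        obtain ⟨r, hr, hrt⟩ := h1
        refine ⟨r, hr, fun q hq _ htq => ?_⟩
        rcases mem_chain h q hq htq with h2 | h2
        · exact hrt h2
        · exact hp (mem_down p h2 hr)
  | univ =>
    intro p _
    obtain ⟨s, hs⟩ := mem_nonempty h p
    exact ⟨s, hs, fun _ _ _ => Set.mem_univ _⟩
  | inter A B _ _ ihA ihB =>
    intro p hp
    obtain ⟨s, hs, hsA⟩ := ihA p hp.1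
    obtain ⟨t, ht, htB⟩ := ihB p hp.2
    rcases mem_chain h p hs ht with h1 | h1
    · exact ⟨t, ht, fun q hq hpq => ⟨hsA q (mem_down q h1 hq) hpq, htB q hq hpq⟩⟩
    · exact ⟨s, hs, fun q hq hpq => ⟨hsA q hq hpq, htB q (mem_down q h1 hq) hpq⟩⟩
  | sUnion S _ ih =>
    rintro p ⟨A, hA, hp⟩
    obtain ⟨s, hs, hsA⟩ := ih A hA p hp
    exact ⟨s, hs, fun q hq hpq => ⟨A, hA, hsA q hq hpq⟩⟩

/-- every open set contains a full cone above any given node of any given point -/
theorem exists_cone {U : Set (LimPath T ρ)} (hU : IsOpen U) {p : LimPath T ρ} (hp : p ∈ U)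
    {t : T} (ht : t ∈ p.1) : ∃ a : T, t < a ∧ ∀ q : LimPath T ρ, a ∈ q.1 → q ∈ U := by
  obtain ⟨s, hs, hsU⟩ := nhd h hU p hp
  obtain ⟨m, hm, htm, hsm⟩ : ∃ m ∈ p.1, t ≤ m ∧ s ≤ m := by
    rcases mem_chain h p hs ht with h1 | h1
    · exact ⟨t, ht, le_rfl, h1⟩
    · exact ⟨s, hs, h1, le_rfl⟩
  obtain ⟨m', hm', hmm', hrm'⟩ := exists_succ_mem h p hm
  obtain ⟨a, b, hma, hmb, hra, hrb, hab⟩ := h.branch m
  have key : ∀ c : T, m < c → ρ c = Order.succ (ρ m) → c ≠ m' →
      ∀ q : LimPath T ρ, c ∈ q.1 → q ∈ U := by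
    intro c hmc hrc hc q hq
    refine hsU q (mem_down q (hsm.trans hmc.le) hq) ?_
    intro hpq
    exact hc (eq_of_mem_rank_eq h q hq (hpq.1 hm') (hrc.trans hrm'.symm))
  by_cases ha : a = m'
  · exact ⟨b, lt_of_le_of_lt htm hmb, key b hmb hrb (fun hb => hab (ha.trans hb.symm))⟩
  · exact ⟨a, lt_of_le_of_lt htm hma, key a hma hra ha⟩

theorem t2 : T2Space (LimPath T ρ) := by
  refine ⟨fun x y hxy => ?_⟩
  have : x.1 ≠ y.1 := fun hh => hxy (Subtype.ext hh)
  obtain ⟨t, ht⟩ : ∃ t, ¬ (t ∈ x.1 ↔ t ∈ y.1) := by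
    by_contra hcon
    push Not at hcon
    exact this (Set.ext hcon)
  by_cases h1 : t ∈ x.1
  · have h2 : t ∉ y.1 := fun h2 => ht ⟨fun _ => h2, fun _ => h1⟩
    exact ⟨_, _, isOpen_mem t, isOpen_notMem t, h1, h2,
      Set.disjoint_left.2 fun z hz hz' => hz' hz⟩
  · have h2 : t ∈ y.1 := by
      by_contra h2
      exact ht ⟨fun h3 => absurd h3 h1, fun h3 => absurd h3 h2⟩
    exact ⟨_, _, isOpen_notMem t, isOpen_mem t, h1, h2,
      Set.disjoint_left.2 fun z hz hz' => hz hz'⟩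

theorem le_countable_path {α : Ordinal.{0}} (hα : α < ω_ 1) :
    {x : LimPath T ρ | rk x ≤ α}.Countable := by
  have h1 := h.le_countable hα
  classical
  let e : LimPath T ρ → T := fun x => x.2.choose
  refine Set.countable_of_injective_of_countable_image (f := e) ?_ (h1.mono ?_)
  · intro x _ y _ hxy
    have hx := x.2.choose_spec.2
    have hy := y.2.choose_spec.2
    have hxy : x.2.choose = y.2.choose := hxy
    exact Subtype.ext (hx.trans ((congrArg Set.Iio hxy).trans hy.symm))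
  · rintro _ ⟨x, hx, rfl⟩
    exact hx

/-- the space of limit branches is uncountable -/
theorem uncountable_path : Uncountable (LimPath T ρ) := by
  rw [← not_countable_iff]
  intro hc
  obtain ⟨t⟩ := h.nonempty
  obtain ⟨b, hb, hb'⟩ := exists_bound_iSup (f := fun x : LimPath T ρ => rk x)
    (fun x => rk_lt_omega h x)
  obtain ⟨u, d, hd, hlim, -, hud, -, hP⟩ :=
    exists_limit_closed (fun a c => max b (ρ t) < c)
      (fun a _ => ⟨Order.succ (max b (ρ t)), succ_lt_omega1 (max_lt hb (h.lt_omega t)),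
        Order.lt_succ _⟩)
  obtain ⟨c, hc1, hc2⟩ := hP 0
  have h1 : max b (ρ t) < d := hc2.trans (hc1.trans (hud _))
  obtain ⟨x, -, hx⟩ := exists_point h t hlim (lt_of_le_of_lt (le_max_right _ _) h1) hd
  have h2 : rk x < b := hb' x
  rw [hx] at h2
  exact absurd ((le_max_left b (ρ t)).trans_lt h1) (not_lt.2 h2.le)

/-- two different points through each node -/
theorem exists_two (t : T) : ∃ x y : LimPath T ρ, t ∈ x.1 ∧ t ∈ y.1 ∧ x ≠ y := by
  have key : ∀ b < (ω_ 1 : Ordinal.{0}), ∃ x : LimPath T ρ, t ∈ x.1 ∧ b < rk x := by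
    intro b hb
    obtain ⟨u, d, hd, hlim, -, hud, -, hP⟩ :=
      exists_limit_closed (fun a c => max b (ρ t) < c)
        (fun a _ => ⟨Order.succ (max b (ρ t)), succ_lt_omega1 (max_lt hb (h.lt_omega t)),
          Order.lt_succ _⟩)
    obtain ⟨c, hc1, hc2⟩ := hP 0
    have h1 : max b (ρ t) < d := hc2.trans (hc1.trans (hud _))
    obtain ⟨x, hx1, hx⟩ := exists_point h t hlim (lt_of_le_of_lt (le_max_right _ _) h1) hd
    exact ⟨x, hx1, by rw [hx]; exact lt_of_le_of_lt (le_max_left _ _) h1⟩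
  obtain ⟨x, hx, -⟩ := key 0 (Ordinal.omega_pos 1)
  obtain ⟨y, hy, hxy⟩ := key (rk x) (rk_lt_omega h x)
  exact ⟨x, y, hx, hy, fun he => by rw [he] at hxy; exact lt_irrefl _ hxy⟩

theorem no_isolated (x : LimPath T ρ) : ¬ IsOpen ({x} : Set (LimPath T ρ)) := by
  intro hx
  obtain ⟨s, hs⟩ := mem_nonempty h x
  obtain ⟨a, -, ha⟩ := exists_cone h hx (Set.mem_singleton x) hs
  obtain ⟨y, z, hy, hz, hyz⟩ := exists_two h a
  have h1 : y = x := ha y hy
  have h2 : z = x := ha z hz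
  exact hyz (h1.trans h2.symm)

theorem nowhereDense_countable (A : Set (LimPath T ρ)) (hA : IsNowhereDense A) :
    A.Countable := by
  classical
  let D : Set T := {t | ∀ q ∈ A, t ∉ q.1}
  have hDup : ∀ s t : T, s ≤ t → s ∈ D → t ∈ D := fun s t hst hs q hq htq =>
    hs q hq (mem_down q hst htq)
  have hDdense : ∀ t : T, ∃ a, t < a ∧ a ∈ D := by
    intro t
    obtain ⟨x, y, hx, hy, -⟩ := exists_two h t
    have h1 : ¬ {x : LimPath T ρ | t ∈ x.1} ⊆ closure A := by
      intro hsub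
      have : {x : LimPath T ρ | t ∈ x.1} ⊆ interior (closure A) :=
        interior_maximal hsub (isOpen_mem t)
      rw [hA] at this
      exact this hx
    rw [Set.not_subset] at h1
    obtain ⟨p, hp, hpA⟩ := h1
    have hopen : IsOpen ({x : LimPath T ρ | t ∈ x.1} ∩ (closure A)ᶜ) :=
      (isOpen_mem t).inter isClosed_closure.isOpen_compl
    obtain ⟨a, hta, ha⟩ := exists_cone h hopen ⟨hp, hpA⟩ hp
    exact ⟨a, hta, fun q hq haq => (ha q haq).2 (subset_closure hq)⟩
  let M : Set T := {t ∈ D | ∀ s, s < t → s ∉ D}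
  have hMc : M.Countable := by
    refine h.antichain _ ?_
    intro a ha b hb hab
    rcases hab.lt_or_eq with h1 | h1
    · exact absurd ha.1 (hb.2 a h1)
    · exact h1
  have hMmin : ∀ t ∈ D, ∃ m ∈ M, m ≤ t := by
    intro t
    have : ∀ α : Ordinal.{0}, ∀ t : T, ρ t = α → t ∈ D → ∃ m ∈ M, m ≤ t := by
      intro α
      induction α using WellFoundedLT.induction with
      | _ α ih =>
        intro t ht htD
        by_cases h1 : ∃ s, s < t ∧ s ∈ D
        · obtain ⟨s, hst, hsD⟩ := h1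
          obtain ⟨m, hm, hms⟩ := ih (ρ s) (by rw [← ht]; exact h.mono _ _ hst) s rfl hsD
          exact ⟨m, hm, hms.trans hst.le⟩
        · push Not at h1
          exact ⟨t, ⟨htD, h1⟩, le_rfl⟩
    exact this (ρ t) t rfl
  obtain ⟨b, hb, hb'⟩ := exists_bound (S := ρ '' M) (hMc.image ρ)
    (by rintro _ ⟨m, -, rfl⟩; exact h.lt_omega m)
  have hDc : Dᶜ.Countable := by
    refine (h.le_countable hb).mono ?_
    intro t ht
    by_contra hbt
    have hbt : b < ρ t := not_le.1 hbt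
    obtain ⟨a, hta, haD⟩ := hDdense t
    obtain ⟨m, hm, hma⟩ := hMmin a haD
    rcases h.chain m t a hma hta.le with h1 | h1
    · exact ht (hDup m t h1 hm.1)
    · have h2 : ρ m < b := hb' _ ⟨m, hm, rfl⟩
      rcases h1.lt_or_eq with h3 | h3
      · exact absurd (h.mono _ _ h3) (not_lt.2 (h2.le.trans hbt.le))
      · rw [h3] at hbt; exact absurd h2 (not_lt.2 hbt.le)
  let e : LimPath T ρ → T := fun x => x.2.choose
  refine Set.countable_of_injective_of_countable_image (f := e) ?_ ((hDc.union hMc).mono ?_)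
  · intro x _ y _ hxy
    have hx := x.2.choose_spec.2
    have hy := y.2.choose_spec.2
    have hxy : x.2.choose = y.2.choose := hxy
    exact Subtype.ext (hx.trans ((congrArg Set.Iio hxy).trans hy.symm))
  · rintro _ ⟨x, hx, rfl⟩
    have hx' : x.1 = Set.Iio (e x) := x.2.choose_spec.2
    by_cases h1 : e x ∈ D
    · right
      refine ⟨h1, fun s hs hsD => ?_⟩
      exact hsD x hx (by rw [hx']; exact hs)
    · left; exact h1

theorem lusin : IsLusinSpace (LimPath T ρ) := by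
  refine ⟨t2 h, nowhereDense_countable h, ?_, uncountable_path h⟩
  have : {x : LimPath T ρ | IsOpen ({x} : Set (LimPath T ρ))} = ∅ := by
    ext x; simp [no_isolated h x]
  rw [this]; exact Set.countable_empty

end

end Pool.Agent.Lib.MP_1599f7_gt
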