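import Pool.Agent.Lib.MP_1599f7_gt.Tree

open Set

namespace Pool.Agent.Lib.MP_1599f7_gt

variable {T : Type} [PartialOrder T] {ρ : T → Ordinal.{0}}

theorem clopen_basis :
    TopologicalSpace.IsTopologicalBasis {s : Set (LimPath T ρ) | IsClopen s} := by
  refine TopologicalSpace.isTopologicalBasis_of_isOpen_of_nhds (fun u hu => hu.isOpen) ?_
  have hsub : ∀ S : Set (LimPath T ρ), (∃ t : T, S = {x : LimPath T ρ | t ∈ x.1} ∨
      S = {x : LimPath T ρ | t ∉ x.1}) → IsClopen S := by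
    rintro S ⟨t, rfl | rfl⟩
    · refine ⟨?_, isOpen_mem t⟩
      have := (isOpen_notMem (ρ := ρ) t).isClosed_compl
      convert this using 1
      ext x; simp
    · exact ⟨(isOpen_mem (ρ := ρ) t).isClosed_compl, isOpen_notMem t⟩
  intro a u ha hu
  induction hu with
  | basic S hS => exact ⟨S, hsub S hS, ha, Subset.rfl⟩
  | univ => exact ⟨Set.univ, isClopen_univ, Set.mem_univ _, Subset.rfl⟩
  | inter A B _ _ ihA ihB =>
    obtain ⟨A', hA', haA, hA⟩ := ihA ha.1
    obtain ⟨B', hB', haB, hB⟩ := ihB ha.2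
    exact ⟨A' ∩ B', hA'.inter hB', ⟨haA, haB⟩, Set.inter_subset_inter hA hB⟩
  | sUnion S _ ih =>
    obtain ⟨A, hA, haA⟩ := ha
    obtain ⟨A', hA', haA', hAA⟩ := ih A hA haA
    exact ⟨A', hA', haA', hAA.trans (Set.subset_sUnion_of_mem hA)⟩

end Pool.Agent.Lib.MP_1599f7_gt
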